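import Mathlib
import Pool.Agent.ZRM.P33

set_option autoImplicit false

open MeasureTheory ProbabilityTheory

namespace Pool.Agent.Results.MP_3b31ab_pr.BulkUniversality

/-- The semicircle density `ρ_sc(x) = √((4 - x²)₊) / (2π)`. -/
noncomputable def rhoSC (x : ℝ) : ℝ := 1 / (2 * Real.pi) * Real.sqrt (max (4 - x ^ 2) 0)

/-- `𝓢ₙ`: the symmetric `n × n` matrices with every entry (diagonal included) in `{-1, +1}` and
every row sum equal to `0`. -/
def signMatrices (n : ℕ) : Set (Matrix (Fin n) (Fin n) ℝ) :=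
  {M | M.IsSymm ∧ (∀ i j, M i j = -1 ∨ M i j = 1) ∧ ∀ i, ∑ j, M i j = 0}

/-- `v` is an orthonormal family of eigenvectors of `A`, with the eigenvalues `l`. -/
def IsEigenfamily {n m : ℕ} (A : Matrix (Fin n) (Fin n) ℝ) (l : Fin m → ℝ)
    (v : Fin m → Fin n → ℝ) : Prop :=
  (∀ i j, ∑ a, v i a * v j a = if i = j then 1 else 0) ∧ ∀ i, A.mulVec (v i) = l i • v i

/-- The scaled matrix `Hₙ = M / √n`. -/
noncomputable def matH {n : ℕ} (M : Matrix (Fin n) (Fin n) ℝ) : Matrix (Fin n) (Fin n) ℝ :=
  Matrix.of fun i j => M i j / Real.sqrt n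

/-- The Gaussian orthogonal ensemble: off-diagonal variance `1/n`, diagonal variance `2/n`, made
from independent standard Gaussians `X (i, j)`. -/
noncomputable def goe {n : ℕ} (X : Fin n × Fin n → ℝ) : Matrix (Fin n) (Fin n) ℝ :=
  Matrix.of fun i j => (X (i, j) + X (j, i)) / Real.sqrt (2 * n)

theorem goe_isHermitian {n : ℕ} (X : Fin n × Fin n → ℝ) : (goe X).IsHermitian := by
  ext i j
  simp [goe, Matrix.conjTranspose_apply, add_comm]

/-! #### The hyperplane orthogonal to `𝟏` (used only in the proofs) -/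

/-- The all-ones vector `𝟏`. -/
noncomputable def ones (n : ℕ) : EuclideanSpace ℝ (Fin n) := WithLp.toLp 2 (fun _ => 1)

/-- The hyperplane `𝟏^⊥`. -/
noncomputable def onesPerp (n : ℕ) : Submodule ℝ (EuclideanSpace ℝ (Fin n)) :=
  (Submodule.span ℝ {ones n})ᗮ

/-- The operator `Hₙ` on Euclidean space. -/
noncomputable def opH {n : ℕ} (M : Matrix (Fin n) (Fin n) ℝ) :
    EuclideanSpace ℝ (Fin n) →ₗ[ℝ] EuclideanSpace ℝ (Fin n) :=
  Matrix.toEuclideanLin (matH M)

theorem opH_isSymmetric {n : ℕ} {M : Matrix (Fin n) (Fin n) ℝ} (hM : M ∈ signMatrices n) :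
    (opH M).IsSymmetric := by
  unfold opH
  rw [Matrix.isSymmetric_toEuclideanLin_iff]
  ext i j
  have := congrFun (congrFun hM.1 i) j
  simp only [Matrix.transpose_apply] at this
  simp [matH, Matrix.conjTranspose_apply, this]

theorem matH_ones {n : ℕ} {M : Matrix (Fin n) (Fin n) ℝ} (hM : M ∈ signMatrices n) (c : ℝ) :
    (matH M).mulVec (fun _ => c) = 0 := by
  funext i
  simp only [Matrix.mulVec, dotProduct, matH, Matrix.of_apply, Pi.zero_apply]
  have h : ∀ j, M i j / Real.sqrt n * c = M i j * (c / Real.sqrt n) := fun j => by ring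
  rw [Finset.sum_congr rfl fun j _ => h j, ← Finset.sum_mul, hM.2.2 i, zero_mul]

theorem opH_ones {n : ℕ} {M : Matrix (Fin n) (Fin n) ℝ} (hM : M ∈ signMatrices n) :
    opH M (ones n) = 0 := by
  unfold opH ones
  rw [Matrix.toLpLin_apply]
  ext i
  simp only [PiLp.zero_apply]
  rw [matH_ones hM 1]
  rfl

theorem opH_mem {n : ℕ} {M : Matrix (Fin n) (Fin n) ℝ} (hM : M ∈ signMatrices n) :
    ∀ v ∈ onesPerp n, opH M v ∈ onesPerp n := by
  intro v _
  unfold onesPerp
  rw [Submodule.mem_orthogonal_singleton_iff_inner_right, ← opH_isSymmetric hM, opH_ones hM,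
    inner_zero_left]

theorem ones_ne_zero {n : ℕ} (hn : 0 < n) : ones n ≠ 0 := by
  intro h
  have := congrArg (fun v : EuclideanSpace ℝ (Fin n) => v ⟨0, hn⟩) h
  simp [ones] at this

theorem finrank_onesPerp (n : ℕ) : Module.finrank ℝ (onesPerp n) = n - 1 := by
  have h := Submodule.finrank_add_finrank_orthogonal (Submodule.span ℝ {ones n})
  rw [finrank_euclideanSpace_fin] at h
  rcases Nat.eq_zero_or_pos n with h0 | h0
  · subst h0
    unfold onesPerp
    omega
  · rw [finrank_span_singleton (ones_ne_zero h0)] at h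
    unfold onesPerp
    omega

/-- `Hₙ` has on `𝟏^⊥` an orthonormal basis of `n - 1` eigenvectors. -/
theorem exists_lam {n : ℕ} (M : signMatrices n) : ∃ l : Fin (n - 1) → ℝ,
    ∃ v : Fin (n - 1) → Fin n → ℝ, IsEigenfamily (matH M.1) l v ∧ ∀ i, ∑ a, v i a = 0 := by
  have hs : ((opH M.1).restrict (opH_mem M.2)).IsSymmetric :=
    (opH_isSymmetric M.2).restrict_invariant (opH_mem M.2)
  let b := hs.eigenvectorBasis (finrank_onesPerp n)
  refine ⟨hs.eigenvalues (finrank_onesPerp n), fun i a => (b i : EuclideanSpace ℝ (Fin n)) a,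
    ⟨?_, ?_⟩, ?_⟩
  · intro i j
    have h := orthonormal_iff_ite.1 b.orthonormal i j
    rw [Submodule.coe_inner, PiLp.inner_apply] at h
    rw [← h]
    refine Finset.sum_congr rfl fun a _ => ?_
    simp [mul_comm]
  · intro i
    have h := congrArg Subtype.val (hs.apply_eigenvectorBasis (finrank_onesPerp n) i)
    rw [LinearMap.restrict_apply] at h
    simp only [opH, Matrix.toLpLin_apply] at h
    have h2 := congrArg (fun w : EuclideanSpace ℝ (Fin n) => (w : Fin n → ℝ)) h
    exact h2
  · intro i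
    have h : (b i : EuclideanSpace ℝ (Fin n)) ∈ onesPerp n := (b i).2
    unfold onesPerp at h
    rw [Submodule.mem_orthogonal_singleton_iff_inner_right, PiLp.inner_apply] at h
    rw [← h]
    refine Finset.sum_congr rfl fun a _ => ?_
    simp only [ones, RCLike.inner_apply, conj_trivial, mul_one]
    rfl

/-- The GOE matrix has an orthonormal basis of `n` eigenvectors. -/
theorem exists_mu {n : ℕ} (X : Fin n × Fin n → ℝ) : ∃ l : Fin n → ℝ,
    ∃ v : Fin n → Fin n → ℝ, IsEigenfamily (goe X) l v := by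
  let b := (goe_isHermitian X).eigenvectorBasis
  refine ⟨(goe_isHermitian X).eigenvalues, fun i a => b i a, ?_, ?_⟩
  · intro i j
    have h := orthonormal_iff_ite.1 b.orthonormal i j
    rw [PiLp.inner_apply] at h
    rw [← h]
    refine Finset.sum_congr rfl fun a _ => ?_
    simp [mul_comm]
  · intro i
    have h := (goe_isHermitian X).mulVec_eigenvectorBasis i
    exact h

/-- The eigenvalues `λ_i`, with multiplicity, of `Hₙ` restricted to `𝟏^⊥`: there is an
orthonormal basis `v` of `𝟏^⊥` with `Hₙ v_i = λ_i v_i`. -/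
noncomputable def lam {n : ℕ} (M : signMatrices n) : Fin (n - 1) → ℝ :=
  Classical.choose (exists_lam M)

/-- The eigenvalues `μ_i`, with multiplicity, of the GOE matrix. -/
noncomputable def mu {n : ℕ} (X : Fin n × Fin n → ℝ) : Fin n → ℝ :=
  Classical.choose (exists_mu X)

/-- `∑ F (n ρ_sc(x) (l_{i_1} - x), …, n ρ_sc(x) (l_{i_k} - x))` over distinct `i_1, …, i_k`. -/
noncomputable def kSum {k : ℕ} {ι : Type} [Fintype ι] (n : ℕ) (F : (Fin k → ℝ) → ℝ)
    (x : ℝ) (l : ι → ℝ) : ℝ :=
  ∑ i : Fin k ↪ ι, F (fun t => (n : ℝ) * rhoSC x * (l (i t) - x))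

/-- Expectation for `Mₙ` uniform on `𝓢ₙ`. -/
noncomputable def expU (n : ℕ) (f : signMatrices n → ℝ) : ℝ :=
  (∑ᶠ M : signMatrices n, f M) / Nat.card (signMatrices n)

/-- Expectation over independent standard Gaussians. -/
noncomputable def expG (n : ℕ) (f : (Fin n × Fin n → ℝ) → ℝ) : ℝ :=
  ∫ X, f X ∂(Measure.pi fun _ : Fin n × Fin n => gaussianReal 0 1)

/-- `Sₙ(F, E)` with window `b`. -/
noncomputable def statS {k : ℕ} (n : ℕ) (b : ℝ) (F : (Fin k → ℝ) → ℝ) (E : ℝ) : ℝ :=
  1 / (2 * b) * ∫ x in (E - b)..(E + b), expU n (fun M => kSum n F x (lam M))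

/-- `Sₙ^GOE(F, E)` with window `b`. -/
noncomputable def statG {k : ℕ} (n : ℕ) (b : ℝ) (F : (Fin k → ℝ) → ℝ) (E : ℝ) : ℝ :=
  1 / (2 * b) * ∫ x in (E - b)..(E + b), expG n (fun X => kSum n F x (mu X))

/-! ### Proof of the translation (the theorem itself is proved in `Pool/Agent/ZR`) -/

private theorem fin_equiv {ι κ : Type} [Fintype ι] [Fintype κ] (f : ι → ℝ) (g : κ → ℝ)
    (h : (Finset.univ : Finset ι).val.map f = (Finset.univ : Finset κ).val.map g) :
    ∃ e : ι ≃ κ, ∀ i, g (e i) = f i := by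
  classical
  have hc : ∀ c : ℝ, Fintype.card {a // f a = c} = Fintype.card {b // g b = c} := by
    intro c
    have h1 := congrArg (Multiset.countP (fun x => x = c)) h
    rw [Multiset.countP_map, Multiset.countP_map] at h1
    rw [Fintype.card_subtype, Fintype.card_subtype]
    exact h1
  refine ⟨Equiv.ofFiberEquiv (f := f) (g := g) (fun c => Fintype.equivOfCardEq (hc c)), ?_⟩
  intro i
  exact Equiv.ofFiberEquiv_map _ i

/-- The `k`-point sum through the multiset of values. -/
theorem kSum_multiset {k : ℕ} {ι : Type} [Fintype ι] (n : ℕ) (F : (Fin k → ℝ) → ℝ) (x : ℝ)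
    (l : ι → ℝ) (s : Multiset ℝ) (hs : s = (Finset.univ : Finset ι).val.map l) :
    (∑ f : Fin k ↪ Fin s.toList.length,
        F (fun t => (n : ℝ) * rhoSC x * (s.toList.get (f t) - x))) = kSum n F x l := by
  have h0 : (Finset.univ : Finset (Fin s.toList.length)).val.map (fun i => s.toList.get i)
      = (Finset.univ : Finset ι).val.map l := by
    rw [← hs]
    have h1 : ((List.ofFn fun i => s.toList.get i : List ℝ) : Multiset ℝ) = s := by
      rw [List.ofFn_get, Multiset.coe_toList]
    refine Eq.trans ?_ h1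
    rw [List.ofFn_eq_map, ← Multiset.map_coe]
    rfl
  obtain ⟨e, he⟩ := fin_equiv _ _ h0
  unfold kSum
  refine Fintype.sum_equiv (Equiv.embeddingCongr (Equiv.refl (Fin k)) e) _ _ ?_
  intro f
  congr 1
  funext t
  have h2 : (Equiv.embeddingCongr (Equiv.refl (Fin k)) e f) t = e (f t) := rfl
  rw [h2, he]

/-- The characteristic polynomial through a full orthonormal family of eigenvectors. -/
theorem roots_of_family {n : ℕ} {A : Matrix (Fin n) (Fin n) ℝ} {l : Fin n → ℝ}
    {v : Fin n → Fin n → ℝ} (h : IsEigenfamily A l v) :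
    A.charpoly.roots = (Finset.univ : Finset (Fin n)).val.map l := by
  obtain ⟨h1, h2⟩ := h
  let W : Matrix (Fin n) (Fin n) ℝ := Matrix.of fun i a => v i a
  have hW : W * W.transpose = 1 := by
    ext i j
    rw [Matrix.mul_apply, Matrix.one_apply]
    exact h1 i j
  have hW' : W.transpose * W = 1 := mul_eq_one_comm.1 hW
  have hA : A * W.transpose = W.transpose * Matrix.diagonal l := by
    ext a i
    rw [Matrix.mul_diagonal, Matrix.mul_apply]
    have := congrFun (h2 i) a
    simp only [Matrix.mulVec, dotProduct, Pi.smul_apply, smul_eq_mul] at this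
    simp only [W, Matrix.transpose_apply, Matrix.of_apply]
    rw [this, mul_comm]
  have hA' : A = W.transpose * (Matrix.diagonal l * W) := by
    rw [← Matrix.mul_assoc, ← hA, Matrix.mul_assoc, hW', Matrix.mul_one]
  rw [hA', Matrix.charpoly_mul_comm, Matrix.mul_assoc, hW, Matrix.mul_one,
    Matrix.charpoly_diagonal, Polynomial.roots_prod]
  · simp
  · simp [Finset.prod_ne_zero_iff, Polynomial.X_sub_C_ne_zero]

theorem roots_goe {n : ℕ} (X : Fin n × Fin n → ℝ) :
    (Matrix.of (fun i j : Fin n => (X (i, j) + X (j, i)) / Real.sqrt (2 * (n : ℝ)))).charpoly.roots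
      = (Finset.univ : Finset (Fin n)).val.map (mu X) := by
  obtain ⟨v, hv⟩ := Classical.choose_spec (exists_mu X)
  exact roots_of_family hv

theorem roots_matH {n : ℕ} (hn : 0 < n) (M : signMatrices n) :
    (matH M.1).charpoly.roots.erase 0
      = (Finset.univ : Finset (Fin (n - 1))).val.map (lam M) := by
  obtain ⟨m, rfl⟩ : ∃ m, n = m + 1 := ⟨n - 1, by omega⟩
  obtain ⟨v, ⟨h1, h2⟩, h3⟩ := Classical.choose_spec (exists_lam M)
  have hm : (0 : ℝ) < ((m + 1 : ℕ) : ℝ) := by positivity
  have hf : IsEigenfamily (matH M.1) (Fin.cons 0 (lam M) : Fin (m + 1) → ℝ)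
      (Fin.cons (fun _ => 1 / Real.sqrt ((m + 1 : ℕ) : ℝ)) v : Fin (m + 1) → Fin (m + 1) → ℝ) := by
    constructor
    · intro i j
      refine Fin.cases ?_ (fun i => ?_) i <;> refine Fin.cases ?_ (fun j => ?_) j
      · simp only [Fin.cons_zero, if_true, Finset.sum_const, Finset.card_univ, Fintype.card_fin,
          nsmul_eq_mul]
        rw [div_mul_div_comm, one_mul, Real.mul_self_sqrt hm.le, mul_one_div, div_self hm.ne']
      · simp only [Fin.cons_zero, Fin.cons_succ]
        rw [← Finset.mul_sum, h3 j, mul_zero, if_neg (Fin.succ_ne_zero j).symm]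
      · simp only [Fin.cons_zero, Fin.cons_succ]
        rw [← Finset.sum_mul, h3 i, zero_mul, if_neg (Fin.succ_ne_zero i)]
      · simp only [Fin.cons_succ, Fin.succ_inj]
        exact h1 i j
    · intro i
      refine Fin.cases ?_ (fun i => ?_) i
      · simp only [Fin.cons_zero, zero_smul]
        exact matH_ones M.2 _
      · simp only [Fin.cons_succ]
        exact h2 i
  rw [roots_of_family hf, Fin.univ_succ]
  simp only [Finset.cons_val, Multiset.map_cons, Fin.cons_zero, Multiset.erase_cons_head,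
    Finset.map_val, Multiset.map_map]
  rfl

/-- The matrix with the sign pattern `σ`. -/
noncomputable def signMat {n : ℕ} (σ : Fin n → Fin n → Bool) : Matrix (Fin n) (Fin n) ℝ :=
  Matrix.of fun i j => if σ i j then (1 : ℝ) else -1

/-- The symmetric sign patterns with zero row sums. -/
def pats (n : ℕ) : Finset (Fin n → Fin n → Bool) :=
  Finset.univ.filter (fun σ : Fin n → Fin n → Bool =>
    (∀ i j, σ i j = σ j i) ∧ ∀ i, ∑ j, (if σ i j then (1 : ℤ) else -1) = 0)

theorem signMat_mem {n : ℕ} {σ : Fin n → Fin n → Bool} (h : σ ∈ pats n) :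
    signMat σ ∈ signMatrices n := by
  obtain ⟨h1, h2⟩ := (Finset.mem_filter.1 h).2
  refine ⟨?_, ?_, ?_⟩
  · ext i j
    simp only [Matrix.transpose_apply, signMat, Matrix.of_apply]
    rw [h1 j i]
  · intro i j
    simp only [signMat, Matrix.of_apply]
    by_cases h : σ i j <;> simp [h]
  · intro i
    have h3 := congrArg (fun z : ℤ => (z : ℝ)) (h2 i)
    simp only [Int.cast_sum, Int.cast_zero] at h3
    simp only [signMat, Matrix.of_apply]
    rw [← h3]
    refine Finset.sum_congr rfl fun j _ => ?_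
    by_cases h : σ i j <;> simp [h]

/-- Sign patterns and matrices correspond. -/
theorem signMat_bij (n : ℕ) : Function.Bijective
    (fun σ : pats n => (⟨signMat σ.1, signMat_mem σ.2⟩ : signMatrices n)) := by
  constructor
  · rintro ⟨σ, hσ⟩ ⟨τ, hτ⟩ h
    have h1 : signMat σ = signMat τ := congrArg Subtype.val h
    apply Subtype.ext
    funext i j
    have h2 : signMat σ i j = signMat τ i j := by rw [h1]
    simp only [signMat, Matrix.of_apply] at h2
    show σ i j = τ i j
    by_cases ha : σ i j <;> by_cases hb : τ i j <;> simp [ha, hb] at h2 ⊢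
    · norm_num at h2
    · norm_num at h2
  · rintro ⟨M, hM⟩
    obtain ⟨h1, h2, h3⟩ := hM
    have hs : signMat (fun i j => decide (M i j = 1)) = M := by
      ext i j
      simp only [signMat, Matrix.of_apply, decide_eq_true_eq]
      rcases h2 i j with h | h
      · rw [h]; norm_num
      · rw [h]; norm_num
    refine ⟨⟨fun i j => decide (M i j = 1), ?_⟩, ?_⟩
    · refine Finset.mem_filter.2 ⟨Finset.mem_univ _, ?_, ?_⟩
      · intro i j
        have : M i j = M j i := by
          have := congrFun (congrFun h1 j) i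
          simpa [Matrix.transpose_apply] using this
        show decide (M i j = 1) = decide (M j i = 1)
        rw [this]
      · intro i
        have h4 : ((∑ j, (if decide (M i j = 1) then (1 : ℤ) else -1) : ℤ) : ℝ) = 0 := by
          rw [Int.cast_sum, ← h3 i]
          refine Finset.sum_congr rfl fun j _ => ?_
          rcases h2 i j with h | h
          · rw [h]; norm_num
          · rw [h]; norm_num
        exact_mod_cast h4
    · exact Subtype.ext hs

theorem expU_eq {n : ℕ} (f : signMatrices n → ℝ) (g : (Fin n → Fin n → Bool) → ℝ)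
    (hfg : ∀ (σ : Fin n → Fin n → Bool) (h : σ ∈ pats n), g σ = f ⟨signMat σ, signMat_mem h⟩) :
    (∑ σ ∈ pats n, g σ) / ((pats n).card : ℝ) = expU n f := by
  classical
  have : Finite (signMatrices n) := Finite.of_surjective _ (signMat_bij n).2
  have := Fintype.ofFinite (signMatrices n)
  unfold expU
  rw [finsum_eq_sum_of_fintype, Nat.card_eq_fintype_card,
    ← Fintype.card_of_bijective (signMat_bij n), Fintype.card_coe, ← Finset.sum_coe_sort]
  congr 1
  exact Fintype.sum_bijective _ (signMat_bij n) _ _ fun σ => hfg σ.1 σ.2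

theorem rhoSC_eq (x : ℝ) : rhoSC x = Real.sqrt (4 - x ^ 2) / (2 * Real.pi) := by
  unfold rhoSC
  rcases le_total (4 - x ^ 2) 0 with h | h
  · rw [max_eq_right h, Real.sqrt_zero, Real.sqrt_eq_zero_of_nonpos h]
    simp
  · rw [max_eq_left h]
    ring

/-- **Bulk universality.**  For the symmetric `±1` matrices with zero row sums (`n = 2m`), every
`ε ∈ (0,1)`, `k ≥ 1`, `E ∈ (-2,2)` and `F ∈ C_c(ℝ^k)`: with the window `bₙ = n^(-1+ε)`,
`Sₙ(F, E) - Sₙ^GOE(F, E) → 0`. -/
theorem result (ε : ℝ) (hε : 0 < ε) (hε' : ε < 1) (k : ℕ) (hk : 1 ≤ k) (E : ℝ)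
    (hE : E ∈ Set.Ioo (-2 : ℝ) 2) (F : (Fin k → ℝ) → ℝ) (hF : Continuous F)
    (hF' : HasCompactSupport F) :
    Filter.Tendsto (fun m : ℕ =>
      statS (2 * m) (((2 * m : ℕ) : ℝ) ^ (-1 + ε)) F E
        - statG (2 * m) (((2 * m : ℕ) : ℝ) ^ (-1 + ε)) F E) Filter.atTop (nhds 0) := by
  have key := Pool.Agent.ZR.s19275 Pool.Agent.ZR.j1 Pool.Agent.ZR.mainFullF ε hε hε' k hk E hE.1 hE.2 F hF hF' rhoSC rhoSC_eq
    (fun n x s => ∑ f : Fin k ↪ Fin s.toList.length,
      F (fun t => (n : ℝ) * rhoSC x * (s.toList.get (f t) - x))) (fun _ _ _ => rfl)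
    _ (fun _ _ => rfl) _ (fun _ _ => rfl)
  refine key.congr' ?_
  filter_upwards [Filter.eventually_ge_atTop 1] with m hm
  have hn : 0 < 2 * m := by omega
  have hS : ∀ x : ℝ, (∑ σ ∈ pats (2 * m), ∑ f : Fin k ↪ Fin ((Matrix.of (fun i j : Fin (2 * m) =>
        (if σ i j then (1 : ℝ) else -1) / Real.sqrt ((2 * m : ℕ) : ℝ))).charpoly.roots.erase
          0).toList.length,
        F (fun t => ((2 * m : ℕ) : ℝ) * rhoSC x * (((Matrix.of (fun i j : Fin (2 * m) =>
        (if σ i j then (1 : ℝ) else -1) / Real.sqrt ((2 * m : ℕ) : ℝ))).charpoly.roots.erase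
          0).toList.get (f t) - x))) / ((pats (2 * m)).card : ℝ)
      = expU (2 * m) (fun M => kSum (2 * m) F x (lam M)) := by
    intro x
    refine expU_eq _ _ ?_
    intro σ hσ
    refine kSum_multiset (2 * m) F x _ _ ?_
    rw [← roots_matH hn ⟨signMat σ, signMat_mem hσ⟩]
    rfl
  have hG : ∀ x : ℝ, (∫ X : Fin (2 * m) × Fin (2 * m) → ℝ,
        (∑ f : Fin k ↪ Fin (Matrix.of (fun i j : Fin (2 * m) =>
          (X (i, j) + X (j, i)) / Real.sqrt (2 * ((2 * m : ℕ) : ℝ)))).charpoly.roots.toList.length,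
        F (fun t => ((2 * m : ℕ) : ℝ) * rhoSC x * ((Matrix.of (fun i j : Fin (2 * m) =>
          (X (i, j) + X (j, i)) / Real.sqrt (2 * ((2 * m : ℕ) : ℝ)))).charpoly.roots.toList.get
            (f t) - x))) ∂(Measure.pi fun _ : Fin (2 * m) × Fin (2 * m) => gaussianReal 0 1))
      = expG (2 * m) (fun X => kSum (2 * m) F x (mu X)) := by
    intro x
    unfold expG
    congr 1
    funext X
    exact kSum_multiset (2 * m) F x _ _ (roots_goe X)
  unfold statS statG
  rw [← funext hS, ← funext hG]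
  rw [div_eq_mul_one_div, mul_comm, div_eq_mul_one_div (∫ x in _.._, _), mul_comm (∫ x in _.._, _)]
  rfl

end Pool.Agent.Results.MP_3b31ab_pr.BulkUniversality
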